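import Pool.Agent.P.MP_6a4cde_an.Proof

namespace Pool.Agent.Results.MP_6a4cde_an.AllGroups

open Pool.Agent.P.MP_6a4cde_an

universe u

theorem result (G : Type u) [Group G] [Countable G] [Infinite G] (m : ℕ) (hm : 2 ≤ m) :
    ∃ (X : Type u) (_ : MetricSpace X) (_ : CompactSpace X) (_ : MulAction G X)
      (_ : ContinuousConstSMul G X), IsNTame G X (m + 1) ∧ ¬ IsNTame G X m :=
  main G m (by omega)

end Pool.Agent.Results.MP_6a4cde_an.AllGroups
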