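import Pool.Agent.P.MP_6a4cde_an.MinProof

namespace Pool.Agent.Results.MP_6a4cde_an.MinimalAlt

open Pool.Agent.P.MP_6a4cde_an

universe u

theorem result : Countable FinAlt ∧ Infinite FinAlt ∧
    ∀ (X : Type u) [MetricSpace X] [CompactSpace X] [MulAction FinAlt X]
      [ContinuousConstSMul FinAlt X] [MulAction.IsMinimal FinAlt X] (n : ℕ),
      IsNTame FinAlt X n → Subsingleton X ∧ IsNTame FinAlt X 2 :=
  ⟨countable_finAlt, rich_finAlt.infinite, fun _ _ _ _ _ _ _ h =>
    ⟨rich_finAlt.subsingleton_of_tame h,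
      fun _ _ => ⟨0, 1, by decide, (rich_finAlt.subsingleton_of_tame h).elim _ _⟩⟩⟩

end Pool.Agent.Results.MP_6a4cde_an.MinimalAlt
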